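import Pool.Agent.VN.Defs

/-!
# MP_7e9189_lc: the conjugation `J` and strong limits in `LG G`
-/

set_option autoImplicit false

namespace Pool.Agent.H24.VN

open Pool.H88.RFP Pool.Agent.VN
open scoped InnerProductSpace Topology ENNReal
open Filter

variable {G : Type} [Group G]

theorem rho_apply' (g : G) (ξ : HG G) (h : G) : rho g ξ h = ξ (h * g⁻¹) := rfl

/-- elements of the group von Neumann algebra commute with right translations -/
theorem rho_comm {x : HG G →L[ℂ] HG G} (hx : x ∈ LG G) (g : G) : rho g * x = x * rho g := by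
  classical
  exact mem_LG.1 hx g

theorem mem_LG_of {x : HG G →L[ℂ] HG G} (h : ∀ g, rho g * x = x * rho g) : x ∈ LG G := by
  classical
  exact mem_LG.2 h

theorem lam_memLG (g : G) : (lam g : HG G →L[ℂ] HG G) ∈ LG G := by
  refine mem_LG_of fun h => ?_
  ext ξ x
  change ξ (g⁻¹ * (x * h⁻¹)) = ξ (g⁻¹ * x * h⁻¹)
  rw [mul_assoc]

section J

theorem J_mem (ξ : HG G) : Memℓp (fun g : G => (starRingEnd ℂ) (ξ g⁻¹)) 2 := by
  have h2 : (0 : ℝ) < (2 : ℝ≥0∞).toReal := by norm_num
  have h1 := (memℓp_gen_iff h2).1 (lp.memℓp ξ)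
  refine (memℓp_gen_iff h2).2 ?_
  have h3 := (Equiv.summable_iff (Equiv.inv G)).2 h1
  refine h3.congr fun g => ?_
  simp

/-- the conjugation `J` -/
noncomputable def J (ξ : HG G) : HG G := ⟨fun g => (starRingEnd ℂ) (ξ g⁻¹), J_mem ξ⟩

theorem J_apply (ξ : HG G) (g : G) : J ξ g = (starRingEnd ℂ) (ξ g⁻¹) := rfl

theorem J_add (ξ η : HG G) : J (ξ + η) = J ξ + J η := by
  apply lp.ext
  funext g
  simp [J_apply]

theorem J_sub (ξ η : HG G) : J (ξ - η) = J ξ - J η := by
  apply lp.ext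
  funext g
  simp [J_apply]

theorem J_smul (c : ℂ) (ξ : HG G) : J (c • ξ) = (starRingEnd ℂ) c • J ξ := by
  apply lp.ext
  funext g
  simp [J_apply]

theorem J_J (ξ : HG G) : J (J ξ) = ξ := by
  apply lp.ext
  funext g
  simp [J_apply]

theorem norm_J (ξ : HG G) : ‖J ξ‖ = ‖ξ‖ := by
  have h2 : (0 : ℝ) < (2 : ℝ≥0∞).toReal := by norm_num
  rw [lp.norm_eq_tsum_rpow h2, lp.norm_eq_tsum_rpow h2]
  congr 1
  rw [← Equiv.tsum_eq (Equiv.inv G)]
  refine tsum_congr fun g => ?_
  rw [J_apply]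
  simp

/-- `J x J` as a linear operator -/
noncomputable def cJ (x : HG G →L[ℂ] HG G) : HG G →L[ℂ] HG G :=
  LinearMap.mkContinuous
    { toFun := fun ξ => J (x (J ξ))
      map_add' := fun ξ η => by simp [J_add]
      map_smul' := fun c ξ => by simp [J_smul] }
    ‖x‖ (fun ξ => by
      change ‖J (x (J ξ))‖ ≤ _
      rw [norm_J]
      exact (x.le_opNorm _).trans_eq (by rw [norm_J]))

theorem cJ_apply (x : HG G →L[ℂ] HG G) (ξ : HG G) : cJ x ξ = J (x (J ξ)) := rfl

theorem cJ_mul (x y : HG G →L[ℂ] HG G) : cJ (x * y) = cJ x * cJ y := by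
  ext1 ξ
  simp [cJ_apply, J_J]

theorem cJ_one : cJ (1 : HG G →L[ℂ] HG G) = 1 := by
  ext1 ξ
  simp [cJ_apply, J_J]

end J

section dl

open Classical in
/-- the vector `δ_1` -/
noncomputable def d1 : HG G := dl (1 : G)

open Classical in
theorem rho_d1 (g : G) : rho g d1 = (dl g : HG G) := by
  rw [rho, d1, permL_dl]
  simp

open Classical in
theorem lam_d1 (g : G) : lam g d1 = (dl g : HG G) := by
  rw [lam, d1, permL_dl]
  simp

open Classical in
theorem J_d1 : J (d1 : HG G) = d1 := by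
  apply lp.ext
  funext g
  rw [J_apply, d1, dl_apply, dl_apply]
  by_cases h : g = 1 <;> simp [h]

theorem norm_d1 : ‖(d1 : HG G)‖ = 1 := by
  classical
  simp [d1, dl, lp.norm_single]

/-- `J (y δ_1) = y* δ_1` -/
theorem J_app_d1 {y : HG G →L[ℂ] HG G} (hy : y ∈ LG G) : J (y d1) = star y d1 := by
  classical
  apply lp.ext
  funext g
  rw [J_apply, ← inner_dl g (star y d1), ContinuousLinearMap.star_eq_adjoint,
    ContinuousLinearMap.adjoint_inner_right, ← inner_conj_symm]
  congr 1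
  have h1 : y (dl g) = rho g (y d1) := by
    rw [← rho_d1 g]
    exact (DFunLike.congr_fun (rho_comm hy g) d1).symm
  rw [d1, inner_dl, h1, rho_apply', one_mul]
  rfl

open Classical in
theorem eq_of_dl {x y : HG G →L[ℂ] HG G} (h1 : ∀ g : G, x (dl g) = y (dl g)) : x = y := by
  ext1 ξ
  have h2 := lp.hasSum_single (p := 2) (by simp) ξ
  have h3 := h2.mapL x
  have h4 := h2.mapL y
  have h5 : ∀ g, x (lp.single 2 g (ξ g)) = y (lp.single 2 g (ξ g)) := fun g => by
    have h6 : (lp.single 2 g (ξ g) : HG G) = ξ g • dl g := by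
      rw [dl, ← lp.single_smul]
      simp
    rw [h6, map_smul, map_smul, h1]
  simp only [h5] at h3
  exact h3.unique h4

theorem eq_of_d1 {x y : HG G →L[ℂ] HG G} (hx : x ∈ LG G) (hy : y ∈ LG G)
    (h : x d1 = y d1) : x = y := by
  classical
  refine eq_of_dl fun g => ?_
  rw [← rho_d1 g]
  have hx1 := DFunLike.congr_fun (rho_comm hx g) d1
  have hy1 := DFunLike.congr_fun (rho_comm hy g) d1
  simp only [mul_apply_eq_comp] at hx1 hy1
  rw [← hx1, ← hy1, h]

theorem cJ_d1 {x a : HG G →L[ℂ] HG G} (hx : x ∈ LG G) (ha : a ∈ LG G) :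
    cJ x (a d1) = a (star x d1) := by
  rw [cJ_apply, J_app_d1 ha]
  have h1 : x (star a d1) = (x * star a) d1 := rfl
  rw [h1, J_app_d1 (mul_mem hx (star_mem ha)), star_mul, star_star]
  rfl

theorem cJ_comm {x y : HG G →L[ℂ] HG G} (hx : x ∈ LG G) (hy : y ∈ LG G) :
    cJ x * y = y * cJ x := by
  classical
  refine eq_of_dl fun g => ?_
  rw [← lam_d1 g]
  have hl : (lam g : HG G →L[ℂ] HG G) ∈ LG G := lam_memLG g
  have h1 : cJ x ((y * lam g) d1) = (y * lam g) (star x d1) := cJ_d1 hx (mul_mem hy hl)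
  have h2 : cJ x (lam g d1) = lam g (star x d1) := cJ_d1 hx hl
  simp only [mul_apply_eq_comp] at h1 ⊢
  rw [h1, h2]

end dl

section limit

/-- A norm bounded sequence of `LG G` which converges at `δ_1` has a strong limit in `LG G`. -/
theorem exists_limit (x : ℕ → HG G →L[ℂ] HG G) (hx : ∀ n, x n ∈ LG G) (hb : ∀ n, ‖x n‖ ≤ 1)
    (η : HG G) (hη : Tendsto (fun n => x n d1) atTop (𝓝 η)) : ∃ v ∈ LG G, v d1 = η := by
  classical
  have h1 : ∀ g : G, CauchySeq fun n => x n (dl g) := fun g => by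
    have h2 : (fun n => x n (dl g)) = fun n => rho g (x n d1) := by
      funext n
      rw [← rho_d1 g]
      exact (DFunLike.congr_fun (rho_comm (hx n) g) d1).symm
    rw [h2]
    exact (((rho g).continuous.tendsto η).comp hη).cauchySeq
  have h3 : ∀ (ξ : HG G) (s : Finset G),
      CauchySeq fun n => x n (∑ g ∈ s, lp.single 2 g (ξ g)) := fun ξ s => by
    have h4 : ∀ g, ∃ l, Tendsto (fun n => x n (dl g)) atTop (𝓝 l) := fun g =>
      cauchySeq_tendsto_of_complete (h1 g)
    choose l hl using h4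
    have h5 : (fun n => x n (∑ g ∈ s, lp.single 2 g (ξ g))) =
        fun n => ∑ g ∈ s, ξ g • x n (dl g) := by
      funext n
      rw [map_sum]
      refine Finset.sum_congr rfl fun g _ => ?_
      have h6 : (lp.single 2 g (ξ g) : HG G) = ξ g • dl g := by
        rw [dl, ← lp.single_smul]
        simp
      rw [h6, map_smul]
    rw [h5]
    exact (tendsto_finsetSum s fun g _ => (hl g).const_smul (ξ g)).cauchySeq
  have h7 : ∀ ξ : HG G, CauchySeq fun n => x n ξ := fun ξ => by
    rw [Metric.cauchySeq_iff']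
    intro ε hε
    have h8 := lp.hasSum_single (p := 2) (by simp) ξ
    obtain ⟨s, hs⟩ := (Metric.tendsto_nhds.1 h8 (ε / 4) (by positivity)).exists
    obtain ⟨N, hN⟩ := Metric.cauchySeq_iff'.1 (h3 ξ s) (ε / 4) (by positivity)
    refine ⟨N, fun n hn => ?_⟩
    set ζ : HG G := ∑ g ∈ s, lp.single 2 g (ξ g) with hζ
    have h9 : ∀ m, dist (x m ξ) (x m ζ) < ε / 4 := fun m => by
      rw [dist_eq_norm, ← map_sub]
      refine ((x m).le_opNorm _).trans_lt ?_
      have h10 : ‖ξ - ζ‖ < ε / 4 := by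
        rw [← dist_eq_norm, dist_comm]
        exact hs
      calc ‖x m‖ * ‖ξ - ζ‖ ≤ 1 * ‖ξ - ζ‖ := by gcongr; exact hb m
        _ < ε / 4 := by rw [one_mul]; exact h10
    have h11 := hN n hn
    calc dist (x n ξ) (x N ξ)
        ≤ dist (x n ξ) (x n ζ) + dist (x n ζ) (x N ζ) + dist (x N ζ) (x N ξ) :=
          dist_triangle4 _ _ _ _
      _ < ε / 4 + ε / 4 + ε / 4 := by
          have h12 := h9 N
          rw [dist_comm] at h12
          linarith [h9 n]
      _ < ε := by linarith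
  have h13 : ∀ ξ, ∃ l, Tendsto (fun n => x n ξ) atTop (𝓝 l) := fun ξ =>
    cauchySeq_tendsto_of_complete (h7 ξ)
  choose F hF using h13
  have hF' : Tendsto (fun n (ξ : HG G) => x n ξ) atTop (𝓝 F) := tendsto_pi_nhds.2 hF
  let v : HG G →L[ℂ] HG G := continuousLinearMapOfTendsto (fun n => x n) hF'
  have hv : ∀ ξ, v ξ = F ξ := fun ξ => rfl
  refine ⟨v, mem_LG_of fun g => ?_, ?_⟩
  · ext1 ξ
    have h14 : Tendsto (fun n => rho g (x n ξ)) atTop (𝓝 (rho g (F ξ))) :=
      ((rho g).continuous.tendsto _).comp (hF ξ)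
    have h15 : (fun n => rho g (x n ξ)) = fun n => x n (rho g ξ) := by
      funext n
      exact DFunLike.congr_fun (rho_comm (hx n) g) ξ
    rw [h15] at h14
    exact tendsto_nhds_unique h14 (hF (rho g ξ))
  · exact tendsto_nhds_unique (hF d1) hη

end limit

end Pool.Agent.H24.VN
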