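import Mathlib

/-!
# MP_7e9189_lc: a fixed vector near an almost fixed one
-/

set_option autoImplicit false

namespace Pool.Agent.H24.VN

open scoped InnerProductSpace Topology
open Filter

section minnorm

variable {H : Type} [NormedAddCommGroup H] [InnerProductSpace ℂ H]

/-- uniqueness of the element of least norm in a convex set. -/
theorem eq_of_min_norm (C : Set H) (hC : Convex ℝ C) {x y : H} (hx : x ∈ C) (hy : y ∈ C)
    (hmin : ∀ z ∈ C, ‖x‖ ≤ ‖z‖) (hxy : ‖y‖ = ‖x‖) : y = x := by
  have hmid : (1 / 2 : ℝ) • x + (1 / 2 : ℝ) • y ∈ C :=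
    hC hx hy (by norm_num) (by norm_num) (by norm_num)
  have h1 := hmin _ hmid
  have h2 : ‖(1 / 2 : ℝ) • x + (1 / 2 : ℝ) • y‖ = (1 / 2) * ‖x + y‖ := by
    rw [← smul_add, norm_smul]
    simp
  rw [h2] at h1
  have h3 := parallelogram_law_with_norm ℂ x y
  have h4 : ‖x - y‖ * ‖x - y‖ ≤ 0 := by
    rw [hxy] at h3
    nlinarith [norm_nonneg x, norm_nonneg (x + y)]
  have h5 : ‖x - y‖ = 0 := by
    have := norm_nonneg (x - y)
    nlinarith
  exact (sub_eq_zero.1 (norm_eq_zero.1 h5)).symm

variable [CompleteSpace H] {P : Type} [Group P]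

/-- A vector all of whose translates are close to it is close to a fixed vector in the closed
convex hull of the translates. -/
theorem exists_fixed (π : P →* (H →L[ℂ] H)) (hπ : ∀ p x, ‖π p x‖ = ‖x‖) (x0 : H) (r : ℝ)
    (hr : ∀ p, ‖π p x0 - x0‖ ≤ r) :
    ∃ η ∈ closure (convexHull ℝ (Set.range fun p => π p x0)), (∀ p, π p η = η) ∧
      ‖η - x0‖ ≤ r := by
  set O : Set H := Set.range fun p => π p x0 with hO
  set C : Set H := closure (convexHull ℝ O) with hCdef
  have hCconv : Convex ℝ C := (convex_convexHull ℝ O).closure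
  have hCne : C.Nonempty := ⟨π 1 x0, subset_closure (subset_convexHull ℝ O ⟨1, rfl⟩)⟩
  have hCcl : IsClosed C := isClosed_closure
  obtain ⟨η, hηC, hη⟩ : ∃ η ∈ C, ∀ z ∈ C, ‖η‖ ≤ ‖z‖ := by
    let _ : InnerProductSpace ℝ H := InnerProductSpace.rclikeToReal ℂ H
    obtain ⟨v, hv, hv2⟩ := exists_norm_eq_iInf_of_complete_convex (F := H) hCne hCcl.isComplete
      hCconv 0
    refine ⟨v, hv, fun z hz => ?_⟩
    rw [zero_sub, norm_neg] at hv2
    rw [hv2]
    refine (ciInf_le ⟨0, ?_⟩ (⟨z, hz⟩ : C)).trans (by simp)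
    rintro _ ⟨w, rfl⟩
    exact norm_nonneg _
  refine ⟨η, hηC, fun p => ?_, ?_⟩
  · -- invariance of `C`
    have hmaps : Set.MapsTo (π p) C C := by
      have h1 : Set.MapsTo (π p) (convexHull ℝ O) (convexHull ℝ O) := by
        have h2 : (π p) '' (convexHull ℝ O) ⊆ convexHull ℝ O := by
          have h3 : (((π p).restrictScalars ℝ : H →L[ℝ] H) : H →ₗ[ℝ] H) '' (convexHull ℝ O) =
              convexHull ℝ ((((π p).restrictScalars ℝ : H →L[ℝ] H) : H →ₗ[ℝ] H) '' O) :=
            LinearMap.image_convexHull _ _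
          have h4 : (((π p).restrictScalars ℝ : H →L[ℝ] H) : H →ₗ[ℝ] H) '' O ⊆ O := by
            rintro _ ⟨_, ⟨q, rfl⟩, rfl⟩
            refine ⟨p * q, ?_⟩
            simp [map_mul]
          change (((π p).restrictScalars ℝ : H →L[ℝ] H) : H →ₗ[ℝ] H) '' (convexHull ℝ O) ⊆ _
          rw [h3]
          exact convexHull_mono h4
        exact fun x hx => h2 ⟨x, hx, rfl⟩
      exact h1.closure (π p).continuous
    exact eq_of_min_norm C hCconv hηC (hmaps hηC) hη (hπ p η)
  · have hsub : C ⊆ Metric.closedBall x0 r := by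
      apply closure_minimal _ Metric.isClosed_closedBall
      apply convexHull_min _ (convex_closedBall x0 r)
      rintro _ ⟨p, rfl⟩
      rw [Metric.mem_closedBall, dist_eq_norm]
      exact hr p
    have := hsub hηC
    rwa [Metric.mem_closedBall, dist_eq_norm] at this

end minnorm

/-- In a separable metric space an uncountable family has two close members. -/
theorem exists_close {X : Type} [PseudoMetricSpace X] [TopologicalSpace.SeparableSpace X]
    {I : Type} [Uncountable I] (f : I → X) (ε : ℝ) (hε : 0 < ε) :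
    ∃ i j, i ≠ j ∧ dist (f i) (f j) < ε := by
  by_contra hcon
  push Not at hcon
  obtain ⟨s, hsc, hsd⟩ := TopologicalSpace.exists_countable_dense X
  have h1 : ∀ i, ∃ d ∈ s, dist (f i) d < ε / 2 := fun i => by
    obtain ⟨d, hd, hd2⟩ := hsd.exists_dist_lt (f i) (half_pos hε)
    exact ⟨d, hd, hd2⟩
  choose d hds hd using h1
  have hinj : Function.Injective (fun i => (⟨d i, hds i⟩ : s)) := by
    intro i j hij
    by_contra hne
    have h2 : d i = d j := congrArg Subtype.val hij
    have h3 := hcon i j hne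
    have h4 : dist (f i) (f j) ≤ dist (f i) (d i) + dist (d i) (f j) := dist_triangle _ _ _
    rw [h2, dist_comm (d j) (f j)] at h4
    have h5 := hd i
    rw [h2] at h5
    linarith [hd j]
  have : Countable s := hsc.to_subtype
  exact not_countable (α := I) (hinj.countable)

end Pool.Agent.H24.VN
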