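import Pool.Agent.VN.PropT
import Pool.Agent.H24.VN.Hilb
import Pool.Agent.H24.VN.Conj

/-!
# MP_7e9189_lc: property (T) gives intertwiners
-/

set_option autoImplicit false

namespace Pool.Agent.H24.VN

open Pool.H88.RFP Pool.Agent.VN
open scoped InnerProductSpace Topology ENNReal
open Filter

variable {M : Type} [Group M]

theorem norm_of_star_mul {x : HG M →L[ℂ] HG M} (h : star x * x = 1) (ξ : HG M) :
    ‖x ξ‖ = ‖ξ‖ :=
  (ContinuousLinearMap.norm_map_iff_adjoint_comp_self x).2 (by
    rw [ContinuousLinearMap.star_eq_adjoint] at h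
    exact h) ξ

/-- the representation `p ↦ u(p) J v(p) J` -/
noncomputable def piR {P : Type} [Group P] (u v : P →* unitary (LG M)) :
    P →* (HG M →L[ℂ] HG M) where
  toFun p := ((u p : LG M) : HG M →L[ℂ] HG M) * cJ ((v p : LG M) : HG M →L[ℂ] HG M)
  map_one' := by simp [cJ_one]
  map_mul' p q := by
    have h1 : ((u (p * q) : LG M) : HG M →L[ℂ] HG M) =
        ((u p : LG M) : HG M →L[ℂ] HG M) * ((u q : LG M) : HG M →L[ℂ] HG M) := by
      rw [map_mul]; rfl
    have h2 : ((v (p * q) : LG M) : HG M →L[ℂ] HG M) =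
        ((v p : LG M) : HG M →L[ℂ] HG M) * ((v q : LG M) : HG M →L[ℂ] HG M) := by
      rw [map_mul]; rfl
    rw [h1, h2, cJ_mul]
    have h3 := cJ_comm (v p : LG M).2 (u q : LG M).2
    calc _ = ((u p : LG M) : HG M →L[ℂ] HG M) * (((u q : LG M) : HG M →L[ℂ] HG M) *
          cJ ((v p : LG M) : HG M →L[ℂ] HG M)) * cJ ((v q : LG M) : HG M →L[ℂ] HG M) := by
            simp only [mul_assoc]
      _ = _ := by rw [← h3]; simp only [mul_assoc]

theorem coe_star_mul_self (u : unitary (LG M)) :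
    star ((u : LG M) : HG M →L[ℂ] HG M) * ((u : LG M) : HG M →L[ℂ] HG M) = 1 := by
  have h := Unitary.coe_star_mul_self u
  exact congrArg (Subtype.val : LG M → (HG M →L[ℂ] HG M)) h

theorem coe_mul_star_self (u : unitary (LG M)) :
    ((u : LG M) : HG M →L[ℂ] HG M) * star ((u : LG M) : HG M →L[ℂ] HG M) = 1 := by
  have h := Unitary.coe_mul_star_self u
  exact congrArg (Subtype.val : LG M → (HG M →L[ℂ] HG M)) h

theorem norm_piR {P : Type} [Group P] (u v : P →* unitary (LG M)) (p : P) (ξ : HG M) :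
    ‖piR u v p ξ‖ = ‖ξ‖ := by
  change ‖((u p : LG M) : HG M →L[ℂ] HG M) (cJ ((v p : LG M) : HG M →L[ℂ] HG M) ξ)‖ = _
  rw [norm_of_star_mul (coe_star_mul_self _), cJ_apply, norm_J,
    norm_of_star_mul (coe_star_mul_self _), norm_J]

theorem piR_d1 {P : Type} [Group P] (u v : P →* unitary (LG M)) (p : P) :
    piR u v p d1 = (((u p : LG M) : HG M →L[ℂ] HG M) *
      star ((v p : LG M) : HG M →L[ℂ] HG M)) d1 := by
  change ((u p : LG M) : HG M →L[ℂ] HG M) (cJ ((v p : LG M) : HG M →L[ℂ] HG M) d1) = _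
  rw [cJ_apply, J_d1, J_app_d1 (v p : LG M).2]
  rfl

theorem norm_piR_sub {P : Type} [Group P] (u v : P →* unitary (LG M)) (p : P) :
    ‖piR u v p d1 - d1‖ =
      ‖((u p : LG M) : HG M →L[ℂ] HG M) d1 - ((v p : LG M) : HG M →L[ℂ] HG M) d1‖ := by
  set U := ((u p : LG M) : HG M →L[ℂ] HG M) with hU
  set V := ((v p : LG M) : HG M →L[ℂ] HG M) with hV
  have hUm : U ∈ LG M := (u p : LG M).2
  have hVm : V ∈ LG M := (v p : LG M).2
  have h1 : piR u v p d1 - d1 = U (star V d1 - star U d1) := by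
    rw [piR_d1, map_sub]
    have h2 : U (star U d1) = (U * star U) d1 := rfl
    rw [h2, coe_mul_star_self]
    rfl
  rw [h1, norm_of_star_mul (coe_star_mul_self _), ← J_app_d1 hVm, ← J_app_d1 hUm, ← J_sub,
    norm_J, norm_sub_rev]

/-- If the orbit of `δ_1` stays close to `δ_1`, there is an intertwiner. -/
theorem exists_tw {P : Type} [Group P] (u v : P →* unitary (LG M))
    (h : ∀ p, ‖piR u v p d1 - d1‖ ≤ 1 / 2) :
    ∃ w : LG M, w ≠ 0 ∧ ∀ p, (u p : LG M) * w = w * (v p : LG M) := by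
  obtain ⟨η, hη, hfix, hη2⟩ := exists_fixed (piR u v) (norm_piR u v) d1 (1 / 2) h
  -- approximate `η` by elements of the convex hull
  set U : Set (HG M →L[ℂ] HG M) := Set.range fun p => ((u p : LG M) : HG M →L[ℂ] HG M) *
      star ((v p : LG M) : HG M →L[ℂ] HG M) with hU
  let ev : (HG M →L[ℂ] HG M) →ₗ[ℝ] HG M :=
    { toFun := fun x => x d1
      map_add' := fun x y => rfl
      map_smul' := fun c x => rfl }
  have hev : (Set.range fun p => piR u v p d1) = ev '' U := by
    ext ξ
    constructor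
    · rintro ⟨p, rfl⟩
      exact ⟨_, ⟨p, rfl⟩, (piR_d1 u v p).symm⟩
    · rintro ⟨_, ⟨p, rfl⟩, rfl⟩
      exact ⟨p, piR_d1 u v p⟩
  rw [hev] at hη
  have hch : ev '' (convexHull ℝ U) = convexHull ℝ (ev '' U) := LinearMap.image_convexHull ev U
  have hη' : η ∈ closure (ev '' (convexHull ℝ U)) := by
    rw [hch]
    exact hη
  obtain ⟨y, hy, hylim⟩ := mem_closure_iff_seq_limit.1 hη'
  choose x hxU hxy using hy
  have hsub : convexHull ℝ U ⊆ (LG M : Set (HG M →L[ℂ] HG M)) ∩ Metric.closedBall 0 1 := by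
    apply convexHull_min
    · rintro _ ⟨p, rfl⟩
      refine ⟨mul_mem (u p : LG M).2 (star_mem (v p : LG M).2), ?_⟩
      rw [Metric.mem_closedBall, dist_zero_right]
      refine ContinuousLinearMap.opNorm_le_bound _ zero_le_one fun ξ => ?_
      have h1 : star (star ((v p : LG M) : HG M →L[ℂ] HG M)) *
          star ((v p : LG M) : HG M →L[ℂ] HG M) = 1 := by
        rw [star_star]; exact coe_mul_star_self _
      change ‖((u p : LG M) : HG M →L[ℂ] HG M) (star ((v p : LG M) : HG M →L[ℂ] HG M) ξ)‖ ≤ _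
      rw [norm_of_star_mul (coe_star_mul_self _), norm_of_star_mul h1, one_mul]
    · apply Convex.inter _ (convex_closedBall 0 1)
      intro a ha b hb s t _ _ _
      have e1 : s • a = (s : ℂ) • a := by
        ext ξ g
        change s • (a ξ g) = (s : ℂ) • (a ξ g)
        exact Complex.real_smul
      have e2 : t • b = (t : ℂ) • b := by
        ext ξ g
        change t • (b ξ g) = (t : ℂ) • (b ξ g)
        exact Complex.real_smul
      rw [e1, e2]
      exact add_mem (SMulMemClass.smul_mem (s : ℂ) ha) (SMulMemClass.smul_mem (t : ℂ) hb)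
  obtain ⟨w, hw, hwη⟩ := exists_limit x (fun n => (hsub (hxU n)).1)
    (fun n => by
      have := (hsub (hxU n)).2
      rwa [Metric.mem_closedBall, dist_zero_right] at this) η (by
      have : (fun n => x n d1) = y := by
        funext n
        exact hxy n
      rw [this]
      exact hylim)
  refine ⟨⟨w, hw⟩, ?_, fun p => ?_⟩
  · intro h0
    have h1 : w = 0 := congrArg Subtype.val h0
    rw [h1] at hwη
    have h2 : η = 0 := hwη.symm
    rw [h2, zero_sub, norm_neg, norm_d1] at hη2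
    norm_num at hη2
  · apply Subtype.ext
    have h1 := hfix p
    rw [← hwη] at h1
    change ((u p : LG M) : HG M →L[ℂ] HG M) (cJ ((v p : LG M) : HG M →L[ℂ] HG M) (w d1)) =
      w d1 at h1
    rw [cJ_d1 (v p : LG M).2 hw] at h1
    have h2 : (((u p : LG M) : HG M →L[ℂ] HG M) * w *
        star ((v p : LG M) : HG M →L[ℂ] HG M)) = w :=
      eq_of_d1 (mul_mem (mul_mem (u p : LG M).2 hw) (star_mem (v p : LG M).2)) hw h1
    calc ((u p : LG M) : HG M →L[ℂ] HG M) * w
        = ((u p : LG M) : HG M →L[ℂ] HG M) * w *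
            (star ((v p : LG M) : HG M →L[ℂ] HG M) * ((v p : LG M) : HG M →L[ℂ] HG M)) := by
          rw [coe_star_mul_self, mul_one]
      _ = w * ((v p : LG M) : HG M →L[ℂ] HG M) := by rw [← mul_assoc, h2]

open Classical in
/-- Two representations of `K × K` in `L(M)` by unitaries, close on the generators of both factors,
are intertwined by a nonzero element of `L(M)`. -/
theorem exists_intertwiner {K M : Type} [Group K] [Group M] (hT : PropT K) :
    ∃ (S : Finset (K × K)) (ε : ℝ), 0 < ε ∧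
      ∀ (u v : K × K →* unitary (LG M)),
        (∀ s ∈ S, ‖((u s : LG M) : HG M →L[ℂ] HG M) (dl 1) -
          ((v s : LG M) : HG M →L[ℂ] HG M) (dl 1)‖ ≤ ε) →
        ∃ w : LG M, w ≠ 0 ∧ ∀ p, (u p : LG M) * w = w * (v p : LG M) := by
  obtain ⟨S, C, hC, hTK⟩ := hT
  refine ⟨S.image (fun k => (k, 1)) ∪ S.image (fun k => (1, k)), 1 / (4 * C), by positivity,
    fun u v huv => exists_tw u v ?_⟩
  have hL : ∀ k : K, ‖piR u v (k, 1) d1 - d1‖ ≤ 1 / 4 := fun k => by
    have h1 := hTK (HG M) ((piR u v).comp (MonoidHom.inl K K)) (fun g x => norm_piR u v _ x) d1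
      (1 / (4 * C)) (fun s hs => by
        change ‖piR u v (s, 1) d1 - d1‖ ≤ _
        rw [norm_piR_sub]
        exact huv (s, 1) (Finset.mem_union_left _ (Finset.mem_image_of_mem _ hs))) k
    refine h1.trans (le_of_eq ?_)
    field_simp
  have hR : ∀ k : K, ‖piR u v (1, k) d1 - d1‖ ≤ 1 / 4 := fun k => by
    have h1 := hTK (HG M) ((piR u v).comp (MonoidHom.inr K K)) (fun g x => norm_piR u v _ x) d1
      (1 / (4 * C)) (fun s hs => by
        change ‖piR u v (1, s) d1 - d1‖ ≤ _
        rw [norm_piR_sub]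
        exact huv (1, s) (Finset.mem_union_right _ (Finset.mem_image_of_mem _ hs))) k
    refine h1.trans (le_of_eq ?_)
    field_simp
  rintro ⟨k, l⟩
  have h1 : piR u v (k, l) d1 = piR u v (k, 1) (piR u v (1, l) d1) := by
    have h2 : ((k, l) : K × K) = (k, 1) * (1, l) := by simp
    rw [h2, map_mul]
    rfl
  have h3 : piR u v (k, l) d1 - d1 =
      piR u v (k, 1) (piR u v (1, l) d1 - d1) + (piR u v (k, 1) d1 - d1) := by
    rw [h1, map_sub]
    abel
  rw [h3]
  refine (norm_add_le _ _).trans ?_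
  rw [norm_piR]
  linarith [hL k, hR l]

end Pool.Agent.H24.VN
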